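import Pool.Agent.L5helper75.EB.Main

set_option autoImplicit false

/-! # Critical densities of minor-closed classes with bounded blocks

Eppstein's question asks whether the critical density `β = sup e(G)/v(G)` of every proper
minor-closed class `A` is achievable, that is, the density of a minor-balanced graph (which need not
belong to `A`).

(1) This is proved for all classes in which the 2-connected graphs have bounded order.  The critical
density of such a class is usually not attained in the class (for example `1` for forests, or `6/5`
against the values `e/(v - 1)` of blocks).

(2) The main step: if `P` has at least two vertices, `e(P) = β (v(P) - 1)`, and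
`e(Q) ≤ β (v(Q) - 1)` for all minors `Q` of `P`, then `β` is achievable.  If `P` is complete, take the
complete graph with one more vertex; otherwise glue two copies of `P` along two nonadjacent
vertices.  For a minor `M` of the glued graph the connected components of the traces of the branch
sets on the two copies are branch sets of minors `N₁`, `N₂` with `e(M) ≤ e(N₁) + e(N₂)` and
`v(N₁) + v(N₂) ≤ v(M) + 2` (the incidence graph of these components and of the two common vertices
is connected for each branch set).

(3) Consequently `A + k ⊆ A` for the set `A` of the achievable densities: the cone over a
minor-balanced graph is a graph `P` as in (2).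

For (1), let `β` not be achievable.  The excess `e - β (v - 1)` is additive under gluing at a vertex
and its maximum over the minors is superadditive; by (2) small graphs without minors of positive
excess have negative excess.  By induction over the decomposition at cut vertices
`e - β (v - 1) ≤ k x - (v - 1) / k` for all connected members, where `x < β` is the excess of a
minor, so the densities stay away from `β`. -/

namespace Pool.Agent.Results.MP_c60df9_co.BoundedBlocks

open Pool.Agent.L5helper75.EB

theorem result :
    -- (1) classes in which the 2-connected graphs have at most `N` vertices
    (∀ (A : (V : Type) → SimpleGraph V → Prop), MinorClosed A → ∀ N : ℕ,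
      (∀ (V : Type) [Finite V] (G : SimpleGraph V), A V G → TwoConnected G → Nat.card V ≤ N) →
      ∀ β : ℝ, IsLUB (densities A) β → Achievable β) ∧
    -- (2) densities which are reached after gluing at one vertex
    (∀ (V : Type) [Finite V] (P : SimpleGraph V) (β : ℝ), 2 ≤ Nat.card V →
      (ne P : ℝ) = β * (Nat.card V - 1) →
      (∀ (X : Type) [Finite X] [Nonempty X] (Q : SimpleGraph X), IsMinor Q P →
        (ne Q : ℝ) ≤ β * (Nat.card X - 1)) → Achievable β) ∧
    -- (3) shifts
    (∀ β : ℝ, Achievable β → ∀ k : ℕ, Achievable (β + k)) := by
  refine ⟨fun A hA N hN β hβ => bounded_blocks A hA N hN hβ,
    fun V _ P β hV he hP => achievable_of_one hV he hP, fun β hβ k => ?_⟩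
  induction k with
  | zero => simpa using hβ
  | succ k ih =>
    have := achievable_add_one ih
    rw [Nat.cast_succ, ← add_assoc]
    exact this

end Pool.Agent.Results.MP_c60df9_co.BoundedBlocks
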